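import Pool.Agent.Helper52.SG.Goals2

/-!
# Packet SG-MNOR: a counterexample of least order has a normal `r`-subgroup `≠ 1`
-/

set_option autoImplicit false

namespace Pool.Agent.Helper7.SG.MNOR

open Subgroup Pool.H83Shunkov Pool.Agent.Helper29.SH Pool.Agent.Helper52.SG

theorem normalizer_cj {G : Type} [Group G] (K : Subgroup G) (g : G) :
    (normalizer ((cj K g : Subgroup G) : Set G)).map (MulAut.conj g).toMonoidHom ≤
      normalizer (K : Set G) := by
  rintro _ ⟨x, hx, rfl⟩
  have hx' := mem_normalizer_iff_cj.1 hx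
  rw [mem_normalizer_iff_cj]
  show cj K (g * x * g⁻¹) = K
  rw [← cj_mul, ← cj_mul, hx', cj_inv_cancel]

theorem centralizer_cj {G : Type} [Group G] (K : Subgroup G) (g : G) :
    (centralizer ((cj K g : Subgroup G) : Set G)).map (MulAut.conj g).toMonoidHom ≤
      centralizer (K : Set G) := by
  rintro _ ⟨x, hx, rfl⟩
  have hx1 := mem_centralizer_iff.1 hx
  rw [mem_centralizer_iff]
  intro k hk
  have h := hx1 (g⁻¹ * k * g) (conj_mem_cj hk)
  show k * (g * x * g⁻¹) = (g * x * g⁻¹) * k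
  calc k * (g * x * g⁻¹) = g * ((g⁻¹ * k * g) * x) * g⁻¹ := by group
    _ = g * (x * (g⁻¹ * k * g)) * g⁻¹ := by rw [h]
    _ = _ := by group

theorem MC_cj (hJP : S_JP) (hZP : S_ZP) {G : Type} [Group G] {r : ℕ} {P : Subgroup G}
    (h : MC r G P) (g : G) : MC r G (cj P g) := by
  have := h.fin
  have hJ := (hJP G r h.hr P).2.2.2.2.2 g
  have hZ := (hZP G r h.hr P).2.2 g
  refine ⟨h.fin, h.hr, h.h2, cj_isPGroup h.pg g, ?_, ?_, ?_, h.bad, h.ind⟩
  · have : (cj P g).index = P.index := Subgroup.index_map_equiv P (MulAut.conj g⁻¹)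
    rw [this]
    exact h.idx
  · rw [hJ]
    exact PN.comap (f := (MulAut.conj g).toMonoidHom) (MulAut.conj g).injective
      (normalizer_cj _ g) h.hJ
  · rw [hZ]
    exact PN.comap (f := (MulAut.conj g).toMonoidHom) (MulAut.conj g).injective
      (centralizer_cj _ g) h.hZ

theorem t (hFRO : S_FRO) (hJP : S_JP) (hZP : S_ZP) (hMSUB : S_MSUB) : S_MNOR := by
  intro G _ r P0 h0
  have := h0.fin
  have : Fact r.Prime := ⟨h0.hr⟩
  let S : Set (Subgroup G × Subgroup G) := {x | IsPGroup r x.1 ∧ x.1 ≠ ⊥ ∧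
    ¬ PN r (normalizer (x.1 : Set G)) ∧ x.2 ≤ normalizer (x.1 : Set G) ∧ IsPGroup r x.2}
  have hS : S.Nonempty := by
    by_contra hne
    refine h0.bad (hFRO G r h0.hr fun U hU hU1 => ?_)
    by_contra hPN
    exact hne ⟨(U, ⊥), hU, hU1, hPN, bot_le, IsPGroup.of_bot⟩
  obtain ⟨⟨U, Q⟩, ⟨hU, hU1, hPN, hQN, hQ⟩, hmax⟩ :=
    Set.exists_max_image S (fun x => Nat.card x.2) (Set.toFinite S) hS
  simp only at hU hU1 hPN hQN hQ hmax
  have hmaxQ : ∀ R : Subgroup G, IsPGroup r R → R ≤ normalizer (U : Set G) → Q ≤ R → R = Q :=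
    fun R hR hRN hQR => (eq_of_le_of_card_ge hQR (hmax (U, R) ⟨hU, hU1, hPN, hRN, hR⟩)).symm
  have hUQ : U ≤ Q := by
    have := hmaxQ (Q ⊔ U) (hQ.to_sup_of_normal_right' hU hQN) (sup_le hQN le_normalizer)
      le_sup_left
    rw [← this]
    exact le_sup_right
  obtain ⟨P, hMC, hQP⟩ : ∃ P : Subgroup G, MC r G P ∧ Q ≤ P := by
    obtain ⟨S, hQS⟩ := hQ.exists_le_sylow
    obtain ⟨g, hg⟩ := MulAction.exists_smul_eq G (h0.pg.toSylow h0.idx) S
    refine ⟨S, ?_, hQS⟩
    have : (S : Subgroup G) = cj P0 g⁻¹ := by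
      rw [← hg]
      ext x
      rw [mem_cj, Sylow.coe_subgroup_smul, Subgroup.mem_pointwise_smul_iff_inv_smul_mem]
      simp [MulAut.smul_def]
    rw [this]
    exact MC_cj hJP hZP h0 _
  by_cases hQP' : Q = P
  · subst hQP'
    refine ⟨U, ?_, hU, hU1⟩
    rw [← normalizer_eq_top_iff]
    by_contra hne
    exact hPN (hMSUB G r Q hMC _ hQN hne)
  exfalso
  obtain ⟨x, hxP, hxQ, hxN⟩ : ∃ x ∈ P, x ∉ Q ∧ x ∈ normalizer (Q : Set G) := by
    have : Group.IsNilpotent P := hMC.pg.isNilpotent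
    have h1 : Q.subgroupOf P < ⊤ := by
      rw [lt_top_iff_ne_top, Ne, subgroupOf_eq_top]
      exact fun h => hQP' (le_antisymm hQP h)
    have h2 := Group.normalizerCondition_of_isNilpotent (G := P) _ h1
    obtain ⟨x, hx, hx'⟩ := SetLike.exists_of_lt h2
    have hx2 : x ∈ (normalizer (Q : Set G)).subgroupOf P := by
      rw [subgroupOf_normalizer_eq hQP]
      exact hx
    exact ⟨x, x.2, hx', hx2⟩
  let R : Subgroup G := P ⊓ normalizer (Q : Set G)
  have hR : IsPGroup r R := hMC.pg.to_le inf_le_left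
  have hQR : Q < R := by
    refine lt_of_le_of_ne (le_inf hQP le_normalizer) fun h => hxQ ?_
    rw [h]
    exact ⟨hxP, hxN⟩
  have hcard : Nat.card Q < Nat.card R := by
    by_contra hle
    exact hQR.ne (eq_of_le_of_card_ge hQR.le (not_lt.1 hle))
  have hQ1 : Q ≠ ⊥ := fun h => hU1 (le_bot_iff.1 (h ▸ hUQ))
  have hJQ := hJP G r hMC.hr Q
  have hRJ : R ≤ normalizer ((JJ r Q : Subgroup G) : Set G) := by
    rintro y ⟨_, hy⟩
    have hy' := mem_normalizer_iff_cj.1 hy
    rw [mem_normalizer_iff_cj, ← hJQ.2.2.2.2.2 y, hy']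
  have hPNJ : PN r (normalizer ((JJ r Q : Subgroup G) : Set G)) := by
    by_contra hbad
    have := hmax (JJ r Q, R) ⟨hQ.to_le hJQ.2.2.1, hJQ.2.1 hQ hQ1, hbad, hRJ, hR⟩
    exact absurd this (not_le.2 hcard)
  have hZPN : ZS P ≤ normalizer (U : Set G) := by
    intro z hz
    have hzc := mem_centralizer_iff.1 hz.2
    rw [mem_normalizer_iff_cj]
    ext y
    rw [mem_cj]
    constructor
    · intro hy
      have h1 := hzc _ (hQP (hUQ hy))
      have h2 : y = z * y * z⁻¹ := by
        have h3 : z * y * z⁻¹ * z = z * (z * y * z⁻¹) := h1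
        refine mul_left_cancel (a := z) ?_
        rw [← h3]
        group
      rw [h2]
      exact hy
    · intro hy
      have h1 := hzc _ (hQP (hUQ hy))
      have h2 : z * y * z⁻¹ = y := by
        rw [← h1]
        group
      rw [h2]
      exact hy
  have hZQ : ZS P ≤ Q := by
    have := hmaxQ (Q ⊔ ZS P) (hMC.pg.to_le (sup_le hQP inf_le_left)) (sup_le hQN hZPN)
      le_sup_left
    rw [← this]
    exact le_sup_right
  have hZZ : ZS P ≤ ZS Q := le_inf hZQ (inf_le_right.trans (centralizer_le hQP))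
  have hPNZ : PN r (centralizer ((ZS Q : Subgroup G) : Set G)) :=
    PN.mono (centralizer_le hZZ) hMC.hZ
  have hNtop : normalizer (U : Set G) ≠ ⊤ := by
    intro htop
    have h1 := hmaxQ P hMC.pg (htop ▸ le_top) hQP
    exact hQP' h1.symm
  have hmapQ : (Q.subgroupOf (normalizer (U : Set G))).map (normalizer (U : Set G)).subtype = Q := by
    rw [subgroupOf_map_subtype, inf_eq_left.2 hQN]
  apply hPN
  rw [← PN.sub]
  refine hMC.ind (normalizer (U : Set G)) ?_ (Q.subgroupOf (normalizer (U : Set G)))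
    hQ.comap_subtype ?_ ?_ ?_
  · refine lt_of_le_of_ne (Nat.card_le_card_of_injective _ Subtype.coe_injective) fun h => ?_
    exact hNtop (eq_top_of_card_eq _ h)
  · let T : Sylow r (normalizer (U : Set G)) :=
      { toSubgroup := Q.subgroupOf (normalizer (U : Set G))
        isPGroup' := hQ.comap_subtype
        is_maximal' := by
          intro Q' hQ' hle
          have h1 : Q'.map (normalizer (U : Set G)).subtype = Q := by
            refine hmaxQ _ (hQ'.map _) ?_ ?_
            · rintro _ ⟨y, _, rfl⟩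
              exact y.2
            · rw [← hmapQ]
              exact Subgroup.map_mono hle
          refine le_antisymm ?_ hle
          intro y hy
          rw [mem_subgroupOf, ← h1]
          exact ⟨y, hy, rfl⟩ }
    exact T.not_dvd_index
  · refine PN.comap (f := (normalizer (U : Set G)).subtype) (subtype_injective _) ?_ hPNJ
    refine (le_normalizer_map _).trans ?_
    rw [← (hJP (normalizer (U : Set G)) r hMC.hr _).2.2.2.2.1 G
      (normalizer (U : Set G)).subtype (fun x _ hx => Subtype.ext hx), hmapQ]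
  · refine PN.comap (f := (normalizer (U : Set G)).subtype) (subtype_injective _) ?_ hPNZ
    rintro _ ⟨y, hy, rfl⟩
    have hy' := mem_centralizer_iff.1 hy
    rw [mem_centralizer_iff]
    intro z hz
    rw [← hmapQ, (hZP (normalizer (U : Set G)) r hMC.hr _).2.1 G
      (normalizer (U : Set G)).subtype (fun x _ hx => Subtype.ext hx)] at hz
    obtain ⟨z', hz', rfl⟩ := hz
    rw [← map_mul, ← map_mul, hy' z' hz']

end Pool.Agent.Helper7.SG.MNOR
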